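import Mathlib
import Pool.Agent.TH855.CBounds

set_option autoImplicit false

/-!
# Preliminaries: monotonicity of `c`, connected sets in complete multipartite graphs
-/

namespace Pool.Agent.Y388.CF

open Pool.Agent.TH855 Classical Filter
open scoped ENNReal

theorem cAt_mono {W W' : Type} {F : SimpleGraph W} {F' : SimpleGraph W'} (h : F.IsContained F')
    (Δ : ℕ) : cAt F Δ ≤ cAt F' Δ := by
  unfold cAt
  refine iSup_le fun V => iSup_le fun inst => iSup_le fun G => iSup_le fun hfree =>
    iSup_le fun hmax => ?_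
  refine le_iSup_of_le V ?_
  refine le_iSup_of_le inst ?_
  refine le_iSup_of_le G ?_
  refine le_iSup_of_le (fun hc => hfree (h.trans hc)) ?_
  exact le_iSup_of_le hmax (le_refl _)

/-- `c` is monotone -/
theorem c_mono {W W' : Type} {F : SimpleGraph W} {F' : SimpleGraph W'} (h : F.IsContained F') :
    c F ≤ c F' := by
  unfold c
  exact limsup_le_limsup (Eventually.of_forall (fun Δ => cAt_mono h Δ))

/-- a graph without vertices -/
theorem c_empty {W : Type} [IsEmpty W] (F : SimpleGraph W) : c F ≤ 1 := by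
  refine (c_mono (F' := (⊤ : SimpleGraph (Fin 3))) ?_).trans c_triangle_le_one
  exact ⟨⟨⟨fun w => isEmptyElim w, fun {a} => isEmptyElim a⟩, fun a => isEmptyElim a⟩⟩

/-- `c(F) ≤ 1` if `F` is bipartite or becomes bipartite on deleting a vertex -/
theorem c_almost_bipartite {W : Type} [Fintype W] (F : SimpleGraph W)
    (h : F.Colorable 2 ∨ ∃ x, (F.induce {y | y ≠ x}).Colorable 2) : c F ≤ 1 := by
  rcases isEmpty_or_nonempty W with hW | ⟨⟨x⟩⟩
  · exact c_empty F
  · rcases h with h | ⟨x, h⟩
    · exact c_ab_le_one F x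
        (h.of_hom (SimpleGraph.Embedding.induce {y | y ≠ x}).toHom)
    · exact c_ab_le_one F x h

/-- connected sets in a complete multipartite graph with a dominating pair -/
theorem conn_of_pair {U : Type} (H : SimpleGraph U) (S : Set U) (a b : U) (ha : a ∈ S)
    (hb : b ∈ S) (hab : H.Adj a b) (hS : ∀ z ∈ S, z = a ∨ z = b ∨ H.Adj a z ∨ H.Adj b z) :
    (H.induce S).Connected := by
  rw [SimpleGraph.connected_iff_exists_forall_reachable]
  refine ⟨⟨a, ha⟩, ?_⟩
  have h1 : (H.induce S).Reachable ⟨a, ha⟩ ⟨b, hb⟩ := by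
    have : (H.induce S).Adj ⟨a, ha⟩ ⟨b, hb⟩ := hab
    exact this.reachable
  rintro ⟨z, hz⟩
  rcases hS z hz with h | h | h | h
  · subst h; rfl
  · subst h; exact h1
  · have : (H.induce S).Adj ⟨a, ha⟩ ⟨z, hz⟩ := h
    exact this.reachable
  · have : (H.induce S).Adj ⟨b, hb⟩ ⟨z, hz⟩ := h
    exact h1.trans this.reachable

/-- Tree-like gluing without the connectivity of the rims: if `H` has two adjacent vertices
`u₀, u₁` outside the image of the homomorphism such that every vertex of `H` is adjacent to one of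
them, then they can be added to all pieces. -/
theorem treeGlued_add {W U : Type} [Fintype W] (F : SimpleGraph W) (H : SimpleGraph U) (k : ℕ)
    (u₀ u₁ : U) (h01 : H.Adj u₀ u₁) (hdom : ∀ u, H.Adj u₀ u ∨ H.Adj u₁ u)
    (π : W → U) (hπ0 : ∀ w, π w ≠ u₀) (hπ1 : ∀ w, π w ≠ u₁) (m : ℕ) (B : ℕ → Set W)
    (hm : 0 < m)
    (hπ : ∀ a b, F.Adj a b → H.Adj (π a) (π b)) (hcov : ∀ w, ∃ i < m, w ∈ B i)
    (hedge : ∀ a b, F.Adj a b → ∃ i < m, a ∈ B i ∧ b ∈ B i)
    (hinj : ∀ i < m, Set.InjOn π (B i))
    (hglue : ∀ i < m, 0 < i → ∃ j < i, (∀ l < i, B i ∩ B l ⊆ B j) ∧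
      (B i ⊆ B j ∨ (B i ∩ B j).ncard ≤ k)) :
    TreeGlued (F ⊕g (⊥ : SimpleGraph Bool)) H (k + 2) := by
  set π' : W ⊕ Bool → U := Sum.elim π (fun b => if b then u₁ else u₀) with hπ'
  have hne : u₀ ≠ u₁ := h01.ne
  set B' : ℕ → Set (W ⊕ Bool) := fun i => {z | ∀ w, z = Sum.inl w → w ∈ B i} with hB'
  have hl : ∀ i w, (Sum.inl w : W ⊕ Bool) ∈ B' i ↔ w ∈ B i := by
    intro i w
    constructor
    · intro h; exact h w rfl
    · intro h w' hw'
      rw [← Sum.inl.inj hw']; exact h
  have hr : ∀ i b, (Sum.inr b : W ⊕ Bool) ∈ B' i := by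
    intro i b w hw
    exact absurd hw (by simp)
  have hsub : ∀ i l j, B i ∩ B l ⊆ B j → B' i ∩ B' l ⊆ B' j := by
    rintro i l j h (w | b) ⟨h1, h2⟩
    · rw [hl] at h1 h2 ⊢
      exact h ⟨h1, h2⟩
    · exact hr j b
  refine ⟨π', m, B', ?_, ?_, ?_, ?_, ?_⟩
  · rintro (a | a) (b | b) hab
    · exact hπ a b (by simpa using hab)
    · exact absurd hab (by simp)
    · exact absurd hab (by simp)
    · exact absurd hab (by simp)
  · rintro (w | b)
    · obtain ⟨i, hi, hw⟩ := hcov w
      exact ⟨i, hi, (hl i w).2 hw⟩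
    · exact ⟨0, hm, hr 0 b⟩
  · rintro (a | a) (b | b) hab
    · obtain ⟨i, hi, h1, h2⟩ := hedge a b (by simpa using hab)
      exact ⟨i, hi, (hl i a).2 h1, (hl i b).2 h2⟩
    · exact absurd hab (by simp)
    · exact absurd hab (by simp)
    · exact absurd hab (by simp)
  · rintro i hi (a | a) ha (b | b) hb hab
    · exact congrArg Sum.inl (hinj i hi ((hl i a).1 ha) ((hl i b).1 hb) hab)
    · exfalso
      cases b
      · exact hπ0 a hab
      · exact hπ1 a hab
    · exfalso
      cases a
      · exact hπ0 b hab.symm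
      · exact hπ1 b hab.symm
    · cases a <;> cases b
      · rfl
      · exact absurd hab hne
      · exact absurd hab.symm hne
      · rfl
  · intro i hi
    by_cases hi0 : i = 0
    · left; intro l hl; omega
    · right
      obtain ⟨j, hj, hsub', hg⟩ := hglue i hi (Nat.pos_of_ne_zero hi0)
      refine ⟨j, hj, fun l hl => hsub i l j (hsub' l hl), ?_⟩
      rcases hg with hg | hg
      · left
        rintro (w | b) hw
        · rw [hl] at hw ⊢; exact hg hw
        · exact hr j b
      · right
        refine ⟨?_, ?_⟩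
        · have h1 : B' i ∩ B' j ⊆ (Sum.inl '' (B i ∩ B j)) ∪ (Set.range Sum.inr) := by
            rintro (w | b) ⟨h1, h2⟩
            · left
              exact ⟨w, ⟨(hl i w).1 h1, (hl j w).1 h2⟩, rfl⟩
            · right; exact ⟨b, rfl⟩
          have h2 := Set.ncard_le_ncard h1 (Set.toFinite _)
          have h3 := Set.ncard_union_le (Sum.inl '' (B i ∩ B j) : Set (W ⊕ Bool))
            (Set.range Sum.inr)
          have h4 : ((Sum.inl '' (B i ∩ B j) : Set (W ⊕ Bool))).ncard ≤ k :=
            (Set.ncard_image_le).trans hg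
          have h5 : ((Set.range Sum.inr : Set (W ⊕ Bool))).ncard ≤ 2 := by
            have : (Set.range Sum.inr : Set (W ⊕ Bool)) =
                {(Sum.inr true : W ⊕ Bool), Sum.inr false} := by
              ext z
              constructor
              · rintro ⟨b, rfl⟩
                cases b
                · right; rfl
                · left; rfl
              · rintro (h | h)
                · exact ⟨true, h.symm⟩
                · exact ⟨false, h.symm⟩
            rw [this]
            rw [Set.ncard_pair (by simp)]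
          omega
        · refine conn_of_pair H _ u₀ u₁ ⟨Sum.inr false, ⟨hr i false, hr j false⟩, rfl⟩
            ⟨Sum.inr true, ⟨hr i true, hr j true⟩, rfl⟩ h01 ?_
          intro z _
          rcases hdom z with h | h
          · exact Or.inr (Or.inr (Or.inl h))
          · exact Or.inr (Or.inr (Or.inr h))

theorem c_le_of_add {W U : Type} [Fintype W] [Fintype U] (F : SimpleGraph W) (H : SimpleGraph U)
    (k : ℕ) (hH : H.Connected) (hF : TreeGlued (F ⊕g (⊥ : SimpleGraph Bool)) H k) (hk : 1 ≤ k)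
    (hU : 1 < Fintype.card U) : c F ≤ k * c H :=
  (c_mono ⟨⟨(SimpleGraph.Embedding.sumInl : F ↪g F ⊕g (⊥ : SimpleGraph Bool)).toHom,
    Sum.inl_injective⟩⟩).trans (treeGlued_bound _ H k hH hU hk hF)

end Pool.Agent.Y388.CF
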