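import Mathlib
import Pool.Agent.Y388.CF.Basic

set_option autoImplicit false

/-!
# Bipartite graphs together with an independent set of vertices of bounded degree
-/

namespace Pool.Agent.Y388.CF

open Pool.Agent.TH855 Classical Filter
open scoped ENNReal

/-- the graph `K_{1,t,t}` on `Option (Bool × L)`: the apex is `none` -/
def apexGraph (L : Type) : SimpleGraph (Option (Bool × L)) where
  Adj a b := a ≠ b ∧ ∀ p q, a = some p → b = some q → p.1 ≠ q.1
  symm := ⟨by
    rintro a b ⟨h1, h2⟩
    exact ⟨h1.symm, fun p q hp hq => (h2 q p hq hp).symm⟩⟩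
  loopless := ⟨fun a h => h.1 rfl⟩

theorem apexGraph_none (L : Type) (p : Bool × L) : (apexGraph L).Adj none (some p) :=
  ⟨by simp, by intro p q hp; exact absurd hp (by simp)⟩

theorem apexGraph_some (L : Type) (p q : Bool × L) :
    (apexGraph L).Adj (some p) (some q) ↔ p.1 ≠ q.1 := by
  constructor
  · intro h; exact h.2 p q rfl rfl
  · intro h
    refine ⟨fun he => h (by rw [Option.some.inj he]), ?_⟩
    intro p' q' hp hq
    rw [← Option.some.inj hp, ← Option.some.inj hq]
    exact h

theorem apexGraph_connected (L : Type) : (apexGraph L).Connected := by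
  rw [SimpleGraph.connected_iff_exists_forall_reachable]
  refine ⟨none, ?_⟩
  rintro (_ | p)
  · rfl
  · exact (apexGraph_none L p).reachable

theorem c_apexGraph (L : Type) [Fintype L] : c (apexGraph L) ≤ 1 := by
  refine c_ab_le_one _ none ⟨SimpleGraph.Coloring.mk
    (fun y => match y with
      | ⟨none, _⟩ => (0 : Fin 2)
      | ⟨some p, _⟩ => if p.1 then 1 else 0) ?_⟩
  rintro ⟨_ | p, hy⟩ ⟨_ | q, hz⟩ hyz
  · exact absurd rfl hy
  · exact absurd rfl hy
  · exact absurd rfl hz
  · have h1 : (apexGraph L).Adj (some p) (some q) := hyz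
    rw [apexGraph_some] at h1
    simp only
    cases hp : p.1 <;> cases hq : q.1 <;> simp_all

theorem card_apexGraph (L : Type) [Fintype L] [Nonempty L] :
    1 < Fintype.card (Option (Bool × L)) := by
  rw [Fintype.card_option]
  have : 0 < Fintype.card (Bool × L) := Fintype.card_pos
  omega

/-- the basic case: every vertex of `X` sees both sides of the bipartite graph -/
theorem bounded_core {W : Type} [Fintype W] (F : SimpleGraph W) (X : Set W) (col : W → Bool)
    (k : ℕ) (hk : 1 ≤ k)
    (hX : ∀ a b, a ∈ X → b ∈ X → ¬ F.Adj a b)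
    (hcol : ∀ a b, a ∉ X → b ∉ X → F.Adj a b → col a ≠ col b)
    (hdeg : ∀ x ∈ X, (F.neighborSet x).ncard ≤ k)
    (hboth : ∀ x ∈ X, ∀ b : Bool, ∃ y, F.Adj x y ∧ col y = b) : c F ≤ k := by
  rcases isEmpty_or_nonempty W with hW | hW
  · refine (c_empty F).trans ?_
    exact_mod_cast hk
  set π : W → Option (Bool × W) := fun w => if w ∈ X then none else some (col w, w) with hπdef
  have hπX : ∀ w, w ∈ X → π w = none := fun w hw => by simp only [hπdef, if_pos hw]
  have hπY : ∀ w, w ∉ X → π w = some (col w, w) := fun w hw => by simp only [hπdef, if_neg hw]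
  have hnb : ∀ x y, x ∈ X → F.Adj x y → y ∉ X := fun x y hx hxy hy => hX x y hx hy hxy
  -- an enumeration of the vertices of `X`
  obtain ⟨n, e, he⟩ : ∃ (n : ℕ) (e : ℕ → W), ∀ x, ∃ i < n, e i = x := by
    obtain ⟨n, ⟨e⟩⟩ := Finite.exists_equiv_fin W
    refine ⟨n, fun i => if h : i < n then e.symm ⟨i, h⟩ else hW.some, fun x => ?_⟩
    refine ⟨(e x).1, (e x).2, ?_⟩
    show (if h : (e x).1 < n then e.symm ⟨(e x).1, h⟩ else hW.some) = x
    rw [dif_pos (e x).2]
    simp
  set B : ℕ → Set W := fun i => if i = 0 then Xᶜ else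
    (if e (i - 1) ∈ X ∧ ∀ l < i - 1, e l ≠ e (i - 1) then
      insert (e (i - 1)) (F.neighborSet (e (i - 1))) else ∅) with hB
  have hB0 : B 0 = Xᶜ := by simp [hB]
  have hBS : ∀ i, (e i ∈ X ∧ ∀ l < i, e l ≠ e i) → B (i + 1) =
      insert (e i) (F.neighborSet (e i)) := by
    intro i h
    simp only [hB]
    rw [if_neg (by omega), show i + 1 - 1 = i by omega, if_pos h]
  have hBS' : ∀ i, ¬ (e i ∈ X ∧ ∀ l < i, e l ≠ e i) → B (i + 1) = ∅ := by
    intro i h
    simp only [hB]
    rw [if_neg (by omega), show i + 1 - 1 = i by omega, if_neg h]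
  -- the first index of a vertex of `X`
  have hfirst : ∀ x ∈ X, ∃ i < n, e i = x ∧ ∀ l < i, e l ≠ e i := by
    intro x hx
    have hex : ∃ i, i < n ∧ e i = x := by
      obtain ⟨i, hi, h⟩ := he x; exact ⟨i, hi, h⟩
    refine ⟨Nat.find hex, (Nat.find_spec hex).1, (Nat.find_spec hex).2, ?_⟩
    intro l hl h
    refine Nat.find_min hex hl ⟨?_, ?_⟩
    · exact lt_trans hl (Nat.find_spec hex).1
    · rw [h, (Nat.find_spec hex).2]
  have htg : TreeGlued F (apexGraph W) k := by
    refine ⟨π, n + 1, B, ?_, ?_, ?_, ?_, ?_⟩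
    · intro a b hab
      by_cases ha : a ∈ X
      · rw [hπX a ha, hπY b (hnb a b ha hab)]
        exact apexGraph_none W _
      · by_cases hb : b ∈ X
        · rw [hπX b hb, hπY a ha]
          exact (apexGraph_none W _).symm
        · rw [hπY a ha, hπY b hb, apexGraph_some]
          exact hcol a b ha hb hab
    · intro w
      by_cases hw : w ∈ X
      · obtain ⟨i, hi, hiw, h⟩ := hfirst w hw
        refine ⟨i + 1, by omega, ?_⟩
        rw [hBS i ⟨by rw [hiw]; exact hw, h⟩, hiw]
        exact Set.mem_insert _ _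
      · exact ⟨0, by omega, by rw [hB0]; exact hw⟩
    · have key : ∀ a b, a ∈ X → F.Adj a b → ∃ i < n + 1, a ∈ B i ∧ b ∈ B i := by
        intro a b ha hab
        obtain ⟨i, hi, hia, h⟩ := hfirst a ha
        refine ⟨i + 1, by omega, ?_⟩
        rw [hBS i ⟨by rw [hia]; exact ha, h⟩, hia]
        exact ⟨Set.mem_insert _ _, Set.mem_insert_of_mem _ hab⟩
      intro a b hab
      by_cases ha : a ∈ X
      · exact key a b ha hab
      · by_cases hb : b ∈ X
        · obtain ⟨i, hi, h1, h2⟩ := key b a hb hab.symm
          exact ⟨i, hi, h2, h1⟩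
        · exact ⟨0, by omega, by rw [hB0]; exact ⟨ha, hb⟩⟩
    · have key : ∀ a b, a ∉ X → b ∉ X → π a = π b → a = b := by
        intro a b ha hb hab
        rw [hπY a ha, hπY b hb] at hab
        exact (Prod.ext_iff.1 (Option.some.inj hab)).2
      intro i hi
      rcases Nat.eq_zero_or_pos i with rfl | hi0
      · rw [hB0]
        intro a ha b hb hab
        exact key a b ha hb hab
      · obtain ⟨j, rfl⟩ : ∃ j, i = j + 1 := ⟨i - 1, by omega⟩
        by_cases h : e j ∈ X ∧ ∀ l < j, e l ≠ e j
        · rw [hBS j h]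
          have hn : ∀ b ∈ F.neighborSet (e j), b ∉ X := fun b hb => hnb _ _ h.1 hb
          rintro a (ha | ha) b (hb | hb) hab
          · rw [ha, hb]
          · rw [ha, hπX _ h.1, hπY b (hn b hb)] at hab
            exact absurd hab (by simp)
          · rw [hb, hπX _ h.1, hπY a (hn a ha)] at hab
            exact absurd hab (by simp)
          · exact key a b (hn a ha) (hn b hb) hab
        · rw [hBS' j h]
          exact Set.injOn_empty _
    · intro i hi
      rcases Nat.eq_zero_or_pos i with rfl | hi0
      · left; intro l hl; omega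
      · right
        obtain ⟨j, rfl⟩ : ∃ j, i = j + 1 := ⟨i - 1, by omega⟩
        refine ⟨0, by omega, ?_, ?_⟩
        · intro l hl
          rcases Nat.eq_zero_or_pos l with rfl | hl0
          · exact Set.inter_subset_right
          · obtain ⟨l, rfl⟩ : ∃ l', l = l' + 1 := ⟨l - 1, by omega⟩
            by_cases h : e j ∈ X ∧ ∀ l < j, e l ≠ e j
            · by_cases h' : e l ∈ X ∧ ∀ l' < l, e l' ≠ e l
              · rw [hBS j h, hBS l h', hB0]
                have hne : e l ≠ e j := h.2 l (by omega)
                rintro z ⟨h1 | h1, h2 | h2⟩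
                · exact absurd (h2.symm.trans h1) hne
                · rw [h1] at h2
                  exact absurd h.1 (hnb _ _ h'.1 h2)
                · rw [h2] at h1
                  exact absurd h'.1 (hnb _ _ h.1 h1)
                · exact hnb _ _ h.1 h1
              · rw [hBS' l h']; simp
            · rw [hBS' j h]; simp
        · by_cases h : e j ∈ X ∧ ∀ l < j, e l ≠ e j
          · right
            have hint : B (j + 1) ∩ B 0 = F.neighborSet (e j) := by
              rw [hBS j h, hB0]
              ext z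
              constructor
              · rintro ⟨h1 | h1, h2⟩
                · rw [h1] at h2
                  exact absurd h.1 h2
                · exact h1
              · intro hz
                exact ⟨Set.mem_insert_of_mem _ hz, hnb _ _ h.1 hz⟩
            rw [hint]
            refine ⟨hdeg _ h.1, ?_⟩
            obtain ⟨y, hy, hyc⟩ := hboth _ h.1 true
            obtain ⟨z, hz, hzc⟩ := hboth _ h.1 false
            have hyX := hnb _ _ h.1 hy
            have hzX := hnb _ _ h.1 hz
            refine conn_of_pair _ _ (π y) (π z) ⟨y, hy, rfl⟩ ⟨z, hz, rfl⟩ ?_ ?_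
            · rw [hπY y hyX, hπY z hzX, apexGraph_some]
              simp [hyc, hzc]
            · rintro _ ⟨a, ha, rfl⟩
              have haX := hnb _ _ h.1 ha
              rw [hπY y hyX, hπY z hzX, hπY a haX]
              right; right
              simp only [apexGraph_some]
              cases col a
              · left; simp [hyc]
              · right; simp [hzc]
          · left
            rw [hBS' j h]
            exact Set.empty_subset _
  have h1 := treeGlued_bound F (apexGraph W) k (apexGraph_connected W) (card_apexGraph W) hk htg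
  refine h1.trans ?_
  calc (k : ℝ≥0∞) * c (apexGraph W) ≤ k * 1 := mul_le_mul_right (c_apexGraph W) _
    _ = k := mul_one _

/-- **Bipartite graphs together with an independent set of vertices of degree at most `k`.** -/
theorem bounded_transversal {W : Type} [Fintype W] (F : SimpleGraph W) (X : Set W) (k : ℕ)
    (hk : 1 ≤ k) (hX : ∀ a b, a ∈ X → b ∈ X → ¬ F.Adj a b)
    (hb : (F.induce Xᶜ).Colorable 2)
    (hdeg : ∀ x ∈ X, (F.neighborSet x).ncard ≤ k) : c F ≤ k := by
  obtain ⟨C⟩ := hb
  set col : W → Bool := fun w => if h : w ∈ Xᶜ then decide (C ⟨w, h⟩ = 0) else false with hcoldef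
  have hcol : ∀ a b, a ∉ X → b ∉ X → F.Adj a b → col a ≠ col b := by
    intro a b ha hb hab h
    have ha' : a ∈ Xᶜ := ha
    have hb' : b ∈ Xᶜ := hb
    simp only [hcoldef, dif_pos ha', dif_pos hb', decide_eq_decide] at h
    have h2 : (F.induce Xᶜ).Adj ⟨a, ha'⟩ ⟨b, hb'⟩ := hab
    have h3 := C.valid h2
    have key : ∀ a b : Fin 2, a ≠ b → ¬ (a = 0 ↔ b = 0) := by decide
    exact key _ _ h3 h
  set X' : Set W := {x | x ∈ X ∧ ∀ b : Bool, ∃ y, F.Adj x y ∧ col y = b} with hX'
  -- the vertices of `X` that are moved to the bipartite part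
  have hmove : ∀ x, x ∈ X → x ∉ X' → ∃ b : Bool, ∀ y, F.Adj x y → col y ≠ b := by
    intro x hx hx'
    by_contra hcon
    push Not at hcon
    exact hx' ⟨hx, hcon⟩
  set col' : W → Bool := fun w => if h : w ∈ X ∧ w ∉ X' then (hmove w h.1 h.2).choose else col w
    with hcol'def
  have hc1 : ∀ w, w ∈ X → w ∉ X' → ∀ y, F.Adj w y → col y ≠ col' w := by
    intro w h1 h2 y hy
    simp only [hcol'def]
    rw [dif_pos ⟨h1, h2⟩]
    exact (hmove w h1 h2).choose_spec y hy
  have hc2 : ∀ w, w ∉ X → col' w = col w := by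
    intro w hw
    simp only [hcol'def]
    rw [dif_neg (fun h => hw h.1)]
  have hsub : ∀ x, x ∈ X' → x ∈ X := fun x hx => hx.1
  refine bounded_core F X' col' k hk (fun a b ha hb => hX a b ha.1 hb.1) ?_
    (fun x hx => hdeg x hx.1) ?_
  · intro a b ha hb hab
    by_cases haX : a ∈ X
    · have hbX : b ∉ X := fun h => hX a b haX h hab
      rw [hc2 b hbX]
      exact (hc1 a haX ha b hab).symm
    · by_cases hbX : b ∈ X
      · rw [hc2 a haX]
        exact hc1 b hbX hb a hab.symm
      · rw [hc2 a haX, hc2 b hbX]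
        exact hcol a b haX hbX hab
  · intro x hx b
    obtain ⟨y, hy, hyb⟩ := hx.2 b
    refine ⟨y, hy, ?_⟩
    rw [hc2 y (fun h => hX x y hx.1 h hy)]
    exact hyb

/-- `c(F)` is at most the maximum degree for `3`-colourable graphs; more precisely, at most the
maximum degree within any colour class of a proper `3`-colouring. -/
theorem three_colourable {W : Type} [Fintype W] (F : SimpleGraph W) (C : F.Coloring (Fin 3))
    (i : Fin 3) (k : ℕ) (hk : 1 ≤ k) (hdeg : ∀ x, C x = i → (F.neighborSet x).ncard ≤ k) :
    c F ≤ k := by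
  refine bounded_transversal F {x | C x = i} k hk ?_ ?_ hdeg
  · intro a b ha hb hab
    exact C.valid hab (ha.trans hb.symm)
  · -- the other two colours
    have hcard : Fintype.card {j : Fin 3 // j ≠ i} = 2 := by
      rw [Fintype.card_subtype_compl]; simp
    rw [SimpleGraph.colorable_iff_exists_bdd_nat_coloring]
    have e := Fintype.equivFinOfCardEq hcard
    have C2 : (F.induce {x | C x = i}ᶜ).Coloring {j : Fin 3 // j ≠ i} :=
      SimpleGraph.Coloring.mk (fun x => ⟨C x.1, x.2⟩) (by
        intro a b hab h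
        have h1 : F.Adj a.1 b.1 := hab
        exact C.valid h1 (congrArg Subtype.val h))
    have h2 : (F.induce {x | C x = i}ᶜ).Colorable 2 := by
      have := C2.colorable
      rwa [hcard] at this
    exact (SimpleGraph.colorable_iff_exists_bdd_nat_coloring 2).1 h2

/-- **Tree-like gluing of almost bipartite pieces along sets of at most `k` vertices.** -/
theorem separated {W : Type} [Fintype W] (F : SimpleGraph W) (X : Set W) (k : ℕ)
    (hX : ∀ a b, a ∈ X → b ∈ X → ¬ F.Adj a b)
    (hb : (F.induce Xᶜ).Colorable 2)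
    (m : ℕ) (B : ℕ → Set W) (hcov : ∀ w, ∃ i < m, w ∈ B i)
    (hedge : ∀ a b, F.Adj a b → ∃ i < m, a ∈ B i ∧ b ∈ B i)
    (hone : ∀ i < m, (B i ∩ X).Subsingleton)
    (hglue : ∀ i < m, 0 < i → ∃ j < i, (∀ l < i, B i ∩ B l ⊆ B j) ∧
      (B i ⊆ B j ∨ (B i ∩ B j).ncard ≤ k)) : c F ≤ k + 2 := by
  rcases isEmpty_or_nonempty W with hW | hW
  · refine (c_empty F).trans ?_
    calc (1 : ℝ≥0∞) ≤ 2 := by norm_num
      _ ≤ k + 2 := le_add_self
  obtain ⟨C⟩ := hb
  set col : W → Bool := fun w => if h : w ∈ Xᶜ then decide (C ⟨w, h⟩ = 0) else false with hcoldef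
  have hcol : ∀ a b, a ∉ X → b ∉ X → F.Adj a b → col a ≠ col b := by
    intro a b ha hb hab h
    have ha' : a ∈ Xᶜ := ha
    have hb' : b ∈ Xᶜ := hb
    simp only [hcoldef, dif_pos ha', dif_pos hb', decide_eq_decide] at h
    have h2 : (F.induce Xᶜ).Adj ⟨a, ha'⟩ ⟨b, hb'⟩ := hab
    have h3 := C.valid h2
    have key : ∀ a b : Fin 2, a ≠ b → ¬ (a = 0 ↔ b = 0) := by decide
    exact key _ _ h3 h
  have hm : 0 < m := by
    obtain ⟨i, hi, -⟩ := hcov hW.some
    omega
  set π : W → Option (Bool × Option W) := fun w => if w ∈ X then none else some (col w, some w)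
    with hπdef
  have hπX : ∀ w, w ∈ X → π w = none := fun w hw => by simp only [hπdef, if_pos hw]
  have hπY : ∀ w, w ∉ X → π w = some (col w, some w) := fun w hw => by
    simp only [hπdef, if_neg hw]
  have htg := treeGlued_add F (apexGraph (Option W)) k (some (true, none)) (some (false, none))
    (by rw [apexGraph_some]; simp)
    (by
      rintro (_ | p)
      · left; exact (apexGraph_none _ _).symm
      · simp only [apexGraph_some]
        rcases p with ⟨b, z⟩
        cases b
        · left; simp
        · right; simp)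
    π
    (by
      intro w
      by_cases hw : w ∈ X
      · rw [hπX w hw]; simp
      · rw [hπY w hw]; simp)
    (by
      intro w
      by_cases hw : w ∈ X
      · rw [hπX w hw]; simp
      · rw [hπY w hw]; simp)
    m B hm
    (by
      intro a b hab
      by_cases ha : a ∈ X
      · rw [hπX a ha, hπY b (fun h => hX a b ha h hab)]
        exact apexGraph_none _ _
      · by_cases hb : b ∈ X
        · rw [hπX b hb, hπY a ha]
          exact (apexGraph_none _ _).symm
        · rw [hπY a ha, hπY b hb, apexGraph_some]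
          exact hcol a b ha hb hab)
    hcov hedge
    (by
      intro i hi a ha b hb hab
      by_cases haX : a ∈ X
      · by_cases hbX : b ∈ X
        · exact hone i hi ⟨ha, haX⟩ ⟨hb, hbX⟩
        · rw [hπX a haX, hπY b hbX] at hab
          exact absurd hab (by simp)
      · by_cases hbX : b ∈ X
        · rw [hπX b hbX, hπY a haX] at hab
          exact absurd hab (by simp)
        · rw [hπY a haX, hπY b hbX] at hab
          exact Option.some.inj (Prod.ext_iff.1 (Option.some.inj hab)).2)
    hglue
  have h1 := c_le_of_add F (apexGraph (Option W)) (k + 2) (apexGraph_connected _) htg (by omega)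
    (card_apexGraph _)
  refine h1.trans ?_
  calc ((k + 2 : ℕ) : ℝ≥0∞) * c (apexGraph (Option W)) ≤ ((k + 2 : ℕ) : ℝ≥0∞) * 1 :=
        mul_le_mul_right (c_apexGraph _) _
    _ = k + 2 := by rw [mul_one]; push_cast; rfl

end Pool.Agent.Y388.CF
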