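import Mathlib
import Pool.Agent.Y388.CF.Transversal

set_option autoImplicit false

/-!
# Reduction of `r`-colourable graphs with small tree-like pieces to `K_r`
-/

namespace Pool.Agent.Y388.CF

open Pool.Agent.TH855 Classical Filter
open scoped ENNReal

/-- Star-like gluing: the vertices of an independent set `X` are attached one after the other to
the rest. -/
theorem star {W U : Type} [Fintype W] [Fintype U] (F : SimpleGraph W) (H : SimpleGraph U)
    (k : ℕ) (hk : 1 ≤ k) (hH : H.Connected) (hU : 1 < Fintype.card U) (X : Set W)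
    (hX : ∀ a b, a ∈ X → b ∈ X → ¬ F.Adj a b) (π : W → U)
    (hπ : ∀ a b, F.Adj a b → H.Adj (π a) (π b)) (hinj : Set.InjOn π Xᶜ)
    (hXπ : ∀ x ∈ X, ∀ y, y ∉ X → π x ≠ π y) (hcard : (Xᶜ).ncard ≤ k)
    (hconn : (H.induce (π '' Xᶜ)).Connected) : c F ≤ k * c H := by
  rcases isEmpty_or_nonempty W with hW | hW
  · exfalso
    obtain ⟨u, w, hw⟩ := hconn.nonempty
    exact hW.elim w
  obtain ⟨n, e, he⟩ : ∃ (n : ℕ) (e : ℕ → W), ∀ x, ∃ i < n, e i = x := by
    obtain ⟨n, ⟨e⟩⟩ := Finite.exists_equiv_fin W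
    refine ⟨n, fun i => if h : i < n then e.symm ⟨i, h⟩ else hW.some, fun x => ?_⟩
    refine ⟨(e x).1, (e x).2, ?_⟩
    show (if h : (e x).1 < n then e.symm ⟨(e x).1, h⟩ else hW.some) = x
    rw [dif_pos (e x).2]
    simp
  set B : ℕ → Set W := fun i => if i = 0 then Xᶜ else
    (if e (i - 1) ∈ X ∧ ∀ l < i - 1, e l ≠ e (i - 1) then insert (e (i - 1)) Xᶜ else Xᶜ) with hB
  have hB0 : B 0 = Xᶜ := by simp [hB]
  have hBS : ∀ i, (e i ∈ X ∧ ∀ l < i, e l ≠ e i) → B (i + 1) = insert (e i) Xᶜ := by
    intro i h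
    simp only [hB]
    rw [if_neg (by omega), show i + 1 - 1 = i by omega, if_pos h]
  have hBS' : ∀ i, ¬ (e i ∈ X ∧ ∀ l < i, e l ≠ e i) → B (i + 1) = Xᶜ := by
    intro i h
    simp only [hB]
    rw [if_neg (by omega), show i + 1 - 1 = i by omega, if_neg h]
  have hfirst : ∀ x ∈ X, ∃ i < n, e i = x ∧ ∀ l < i, e l ≠ e i := by
    intro x hx
    have hex : ∃ i, i < n ∧ e i = x := by
      obtain ⟨i, hi, h⟩ := he x; exact ⟨i, hi, h⟩
    refine ⟨Nat.find hex, (Nat.find_spec hex).1, (Nat.find_spec hex).2, ?_⟩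
    intro l hl h
    refine Nat.find_min hex hl ⟨?_, ?_⟩
    · exact lt_trans hl (Nat.find_spec hex).1
    · rw [h, (Nat.find_spec hex).2]
  refine treeGlued_bound F H k hH hU hk ⟨π, n + 1, B, hπ, ?_, ?_, ?_, ?_⟩
  · intro w
    by_cases hw : w ∈ X
    · obtain ⟨i, hi, hiw, h⟩ := hfirst w hw
      refine ⟨i + 1, by omega, ?_⟩
      rw [hBS i ⟨by rw [hiw]; exact hw, h⟩, hiw]
      exact Set.mem_insert _ _
    · exact ⟨0, by omega, by rw [hB0]; exact hw⟩
  · have key : ∀ a b, a ∈ X → F.Adj a b → ∃ i < n + 1, a ∈ B i ∧ b ∈ B i := by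
      intro a b ha hab
      obtain ⟨i, hi, hia, h⟩ := hfirst a ha
      refine ⟨i + 1, by omega, ?_⟩
      rw [hBS i ⟨by rw [hia]; exact ha, h⟩, hia]
      exact ⟨Set.mem_insert _ _, Set.mem_insert_of_mem _ (fun hb => hX a b ha hb hab)⟩
    intro a b hab
    by_cases ha : a ∈ X
    · exact key a b ha hab
    · by_cases hb : b ∈ X
      · obtain ⟨i, hi, h1, h2⟩ := key b a hb hab.symm
        exact ⟨i, hi, h2, h1⟩
      · exact ⟨0, by omega, by rw [hB0]; exact ⟨ha, hb⟩⟩
  · intro i hi
    rcases Nat.eq_zero_or_pos i with rfl | hi0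
    · rw [hB0]; exact hinj
    · obtain ⟨j, rfl⟩ : ∃ j, i = j + 1 := ⟨i - 1, by omega⟩
      by_cases h : e j ∈ X ∧ ∀ l < j, e l ≠ e j
      · rw [hBS j h]
        rintro a (ha | ha) b (hb | hb) hab
        · rw [ha, hb]
        · rw [ha] at hab
          exact absurd hab (hXπ _ h.1 b hb)
        · rw [hb] at hab
          exact absurd hab.symm (hXπ _ h.1 a ha)
        · exact hinj ha hb hab
      · rw [hBS' j h]
        exact hinj
  · intro i hi
    rcases Nat.eq_zero_or_pos i with rfl | hi0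
    · left; intro l hl; omega
    · right
      obtain ⟨j, rfl⟩ : ∃ j, i = j + 1 := ⟨i - 1, by omega⟩
      refine ⟨0, by omega, ?_, ?_⟩
      · intro l hl
        rcases Nat.eq_zero_or_pos l with rfl | hl0
        · exact Set.inter_subset_right
        · obtain ⟨l, rfl⟩ : ∃ l', l = l' + 1 := ⟨l - 1, by omega⟩
          by_cases h : e j ∈ X ∧ ∀ l < j, e l ≠ e j
          · by_cases h' : e l ∈ X ∧ ∀ l' < l, e l' ≠ e l
            · rw [hBS j h, hBS l h', hB0]
              have hne : e l ≠ e j := h.2 l (by omega)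
              rintro z ⟨h1 | h1, h2 | h2⟩
              · exact absurd (h2.symm.trans h1) hne
              · rw [h1] at h2
                exact absurd h.1 h2
              · exact h1
              · exact h1
            · rw [hBS' l h', hB0]; exact Set.inter_subset_right
          · rw [hBS' j h, hB0]; exact Set.inter_subset_left
      · by_cases h : e j ∈ X ∧ ∀ l < j, e l ≠ e j
        · right
          have hint : B (j + 1) ∩ B 0 = Xᶜ := by
            rw [hBS j h, hB0]
            ext z
            constructor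
            · rintro ⟨_, h2⟩
              exact h2
            · intro hz
              exact ⟨Set.mem_insert_of_mem _ hz, hz⟩
          rw [hint]
          exact ⟨hcard, hconn⟩
        · left
          rw [hBS' j h, hB0]

/-- the complete multipartite graph with parts `{i} × L` -/
def multi (ι L : Type) : SimpleGraph (ι × L) where
  Adj p q := p.1 ≠ q.1
  symm := ⟨fun _ _ h => h.symm⟩
  loopless := ⟨fun _ h => h rfl⟩

theorem multi_adj {ι L : Type} (p q : ι × L) : (multi ι L).Adj p q ↔ p.1 ≠ q.1 := Iff.rfl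

/-- the first `j` parts have been blown up to size `s + 1` (the last one to size `N + 1`) -/
def part (R N s j : ℕ) : Set (Fin (R + 1) × Fin (N + 1)) :=
  {p | (p.1.val < j ∧ (p.2.val ≤ s ∨ p.1.val = R)) ∨ p.2.val = 0}

theorem multi_conn {ι L : Type} (S : Set (ι × L)) (a b : ι × L) (ha : a ∈ S) (hb : b ∈ S)
    (hab : a.1 ≠ b.1) : ((multi ι L).induce S).Connected := by
  refine conn_of_pair _ _ a b ha hb hab ?_
  intro z _
  right; right
  by_cases h : a.1 = z.1
  · right
    exact fun h' => hab (h.trans h'.symm)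
  · left; exact h

theorem multi_conn' {ι L : Type} (T : Set (ι × L)) (S : Set T) (a b : T) (ha : a ∈ S)
    (hb : b ∈ S) (hab : a.1.1 ≠ b.1.1) : (((multi ι L).induce T).induce S).Connected := by
  refine conn_of_pair _ _ a b ha hb hab ?_
  intro z _
  right; right
  by_cases h : a.1.1 = z.1.1
  · right
    exact fun h' => hab (h.trans h'.symm)
  · left; exact h

theorem multi_step (R N s j : ℕ) (hR : 2 ≤ R) (hj : j ≤ R) :
    c ((multi (Fin (R + 1)) (Fin (N + 1))).induce (part R N s (j + 1))) ≤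
      ((j * (s + 1) + (R - j) : ℕ) : ℝ≥0∞) *
        c ((multi (Fin (R + 1)) (Fin (N + 1))).induce (part R N s j)) := by
  have hmem0 : ∀ (i : Fin (R + 1)) (j' : ℕ), ((i, 0) : Fin (R + 1) × Fin (N + 1)) ∈
      part R N s j' := fun i j' => Or.inr rfl
  -- two indices different from `j`
  obtain ⟨a, b, haj, hbj, hab⟩ : ∃ a b : Fin (R + 1), a.val ≠ j ∧ b.val ≠ j ∧ a ≠ b := by
    rcases Nat.lt_or_ge 1 j with h | h
    · exact ⟨⟨0, by omega⟩, ⟨1, by omega⟩, by simp; omega, by simp; omega,
        by simp [Fin.ext_iff]⟩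
    · rcases Nat.lt_or_ge 0 j with h' | h'
      · exact ⟨⟨0, by omega⟩, ⟨2, by omega⟩, by simp; omega, by simp; omega,
          by simp [Fin.ext_iff]⟩
      · exact ⟨⟨1, by omega⟩, ⟨2, by omega⟩, by simp; omega, by simp; omega,
          by simp [Fin.ext_iff]⟩
  set X : Set (part R N s (j + 1)) := {p | p.1.1.val = j} with hX
  have hXc : ∀ p : part R N s (j + 1), p ∉ X → p.1 ∈ part R N s j := by
    rintro ⟨p, hp⟩ hpX
    have hpj : p.1.val ≠ j := hpX
    rcases hp with ⟨h1, h2⟩ | h
    · have h1' : p.1.val < j + 1 := h1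
      have h3 : p.1.val < j := by omega
      exact Or.inl ⟨h3, h2⟩
    · exact Or.inr h
  set π : part R N s (j + 1) → part R N s j := fun p =>
    if h : p.1 ∈ part R N s j then ⟨p.1, h⟩ else ⟨(p.1.1, 0), hmem0 _ _⟩ with hπ
  have hπ1 : ∀ p, (π p).1.1 = p.1.1 := by
    intro p
    simp only [hπ]
    split_ifs <;> rfl
  have hπ2 : ∀ p, p ∉ X → (π p).1 = p.1 := by
    intro p hp
    simp only [hπ]
    rw [dif_pos (hXc p hp)]
  refine star _ _ _ ?_ ?_ ?_ X ?_ π ?_ ?_ ?_ ?_ ?_
  · -- `1 ≤ k`
    rcases Nat.eq_zero_or_pos j with rfl | h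
    · simp; omega
    · have : 1 * 1 ≤ j * (s + 1) := Nat.mul_le_mul h (by omega)
      omega
  · exact multi_conn _ (a, 0) (b, 0) (hmem0 _ _) (hmem0 _ _) hab
  · rw [Fintype.one_lt_card_iff]
    exact ⟨⟨(a, 0), hmem0 _ _⟩, ⟨(b, 0), hmem0 _ _⟩, fun h => hab (by
      have := congrArg (fun z => z.1.1) h
      exact this)⟩
  · intro p q hp hq hpq
    have h1 : p.1.1 ≠ q.1.1 := hpq
    exact h1 (Fin.ext ((show p.1.1.val = j from hp).trans (show q.1.1.val = j from hq).symm))
  · intro p q hpq
    have h1 : p.1.1 ≠ q.1.1 := hpq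
    show (π p).1.1 ≠ (π q).1.1
    rw [hπ1, hπ1]; exact h1
  · intro p hp q hq hpq
    have h1 := congrArg Subtype.val hpq
    rw [hπ2 p hp, hπ2 q hq] at h1
    exact Subtype.ext h1
  · intro p hp q hq hpq
    have h1 := congrArg (fun z => z.1.1) hpq
    simp only [hπ1] at h1
    apply hq
    show q.1.1.val = j
    rw [← h1]; exact hp
  · -- the number of vertices outside `X`
    have h1 : (Subtype.val '' (Xᶜ : Set (part R N s (j + 1)))) ⊆
        (((((Finset.univ : Finset (Fin (R + 1))).filter (fun i => i.val < j)) ×ˢ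
          ((Finset.univ : Finset (Fin (N + 1))).filter (fun l => l.val ≤ s))) ∪
        (((Finset.univ : Finset (Fin (R + 1))).filter (fun i => j < i.val)) ×ˢ
          {(0 : Fin (N + 1))}) : Finset (Fin (R + 1) × Fin (N + 1))) :
            Set (Fin (R + 1) × Fin (N + 1))) := by
      rintro _ ⟨⟨p, hp⟩, hpX, rfl⟩
      have hpj : p.1.val ≠ j := hpX
      have h2 : (p.1.val < j ∧ (p.2.val ≤ s ∨ p.1.val = R)) ∨ p.2.val = 0 := hXc ⟨p, hp⟩ hpX
      simp only [Finset.coe_union, Finset.coe_product, Set.mem_union, Set.mem_prod,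
        Finset.coe_filter, Finset.mem_univ, true_and, Set.mem_ofPred_eq, Finset.coe_singleton,
        Set.mem_singleton_iff]
      by_cases hlt : p.1.val < j
      · left
        rcases h2 with ⟨_, h3⟩ | h3
        · rcases h3 with h3 | h3
          · exact ⟨hlt, h3⟩
          · omega
        · exact ⟨hlt, by omega⟩
      · right
        rcases h2 with ⟨h3, _⟩ | h3
        · omega
        · exact ⟨by omega, Fin.ext h3⟩
    rw [← Set.ncard_image_of_injective _ Subtype.val_injective]
    refine (Set.ncard_le_ncard h1 (Set.toFinite _)).trans ?_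
    rw [Set.ncard_coe_finset]
    refine (Finset.card_union_le _ _).trans ?_
    rw [Finset.card_product, Finset.card_product, Finset.card_singleton, mul_one]
    have c1 : ((Finset.univ : Finset (Fin (R + 1))).filter (fun i => i.val < j)).card ≤ j := by
      have := Finset.card_le_card_of_injOn (s := (Finset.univ : Finset (Fin (R + 1))).filter
        (fun i => i.val < j)) (t := Finset.range j) (fun i => i.val)
        (by intro i hi; simpa using hi) (by intro x _ y _ h; exact Fin.ext h)
      simpa using this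
    have c2 : ((Finset.univ : Finset (Fin (N + 1))).filter (fun l => l.val ≤ s)).card ≤
        s + 1 := by
      have := Finset.card_le_card_of_injOn (s := (Finset.univ : Finset (Fin (N + 1))).filter
        (fun i => i.val ≤ s)) (t := Finset.range (s + 1)) (fun i => i.val)
        (by
          intro i hi
          have h1 : i.val ≤ s := by simpa using hi
          simp; omega) (by intro x _ y _ h; exact Fin.ext h)
      simpa using this
    have c3 : ((Finset.univ : Finset (Fin (R + 1))).filter (fun i => j < i.val)).card ≤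
        R - j := by
      have := Finset.card_le_card_of_injOn (s := (Finset.univ : Finset (Fin (R + 1))).filter
        (fun i => j < i.val)) (t := Finset.range (R - j)) (fun i => i.val - j - 1)
        (by
          intro i hi
          have h1 : j < i.val := by simpa using hi
          have h2 := i.2
          simp; omega) (by
          intro x hx y hy h
          have h1 : j < x.val := by simpa using hx
          have h2 : j < y.val := by simpa using hy
          simp only at h
          exact Fin.ext (by omega))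
      simpa using this
    exact Nat.add_le_add (Nat.mul_le_mul c1 c2) c3
  · have hm : ∀ i : Fin (R + 1), i.val ≠ j → (⟨(i, 0), hmem0 _ _⟩ : part R N s j) ∈
        π '' Xᶜ := by
      intro i hi
      refine ⟨⟨(i, 0), hmem0 _ _⟩, hi, ?_⟩
      exact Subtype.ext (hπ2 _ hi)
    exact multi_conn' _ _ ⟨(a, 0), hmem0 _ _⟩ ⟨(b, 0), hmem0 _ _⟩ (hm a haj) (hm b hbj) hab

theorem multi_zero (R N s : ℕ) :
    c ((multi (Fin (R + 1)) (Fin (N + 1))).induce (part R N s 0)) ≤
      c (⊤ : SimpleGraph (Fin (R + 1))) := by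
  refine c_mono ⟨⟨⟨fun p => p.1.1, ?_⟩, ?_⟩⟩
  · intro p q h; exact h
  · rintro ⟨p, hp⟩ ⟨q, hq⟩ h
    have h1 : p.1 = q.1 := h
    have hz : ∀ p : Fin (R + 1) × Fin (N + 1), p ∈ part R N s 0 → p.2 = 0 := by
      rintro p (⟨h, _⟩ | h)
      · omega
      · exact Fin.ext h
    exact Subtype.ext (Prod.ext h1 ((hz p hp).trans (hz q hq).symm))

/-- blowing up `K_{R+1}` -/
theorem multi_bound (R N s : ℕ) (hR : 2 ≤ R) (j : ℕ) (hj : j ≤ R + 1) :
    c ((multi (Fin (R + 1)) (Fin (N + 1))).induce (part R N s j)) ≤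
      ((∏ i ∈ Finset.range j, (i * (s + 1) + (R - i)) : ℕ) : ℝ≥0∞) *
        c (⊤ : SimpleGraph (Fin (R + 1))) := by
  induction j with
  | zero => simpa using multi_zero R N s
  | succ j ih =>
    refine (multi_step R N s j hR (by omega)).trans ?_
    rw [Finset.prod_range_succ, mul_comm (∏ i ∈ Finset.range j, (i * (s + 1) + (R - i)))]
    push_cast
    rw [mul_assoc]
    refine mul_le_mul_right ?_ _
    have := ih (by omega)
    push_cast at this
    exact this

/-- the target graph -/
def target (R N s : ℕ) : Set (Fin (R + 1) × Fin (N + 1)) := {p | p.2.val ≤ s ∨ p.1.val = R}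

theorem target_eq (R N s : ℕ) : target R N s = part R N s (R + 1) := by
  ext p
  constructor
  · intro h; exact Or.inl ⟨p.1.2, h⟩
  · rintro (⟨_, h⟩ | h)
    · exact h
    · exact Or.inl (by omega)

/-- a better bound for three colours -/
theorem target_three (N s : ℕ) :
    c ((multi (Fin (2 + 1)) (Fin (N + 1))).induce (target 2 N s)) ≤
      ((2 * (s + 1) : ℕ) : ℝ≥0∞) := by
  refine three_colourable _ (SimpleGraph.Coloring.mk (fun p => p.1.1) (fun {p q} h => h))
    (Fin.last 2) _ (by omega) ?_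
  intro x hx
  have hx' : x.1.1 = Fin.last 2 := hx
  have h1 : (Subtype.val '' (((multi (Fin (2 + 1)) (Fin (N + 1))).induce
      (target 2 N s)).neighborSet x)) ⊆
      ((((Finset.univ : Finset (Fin (2 + 1))).filter (fun i => i.val < 2)) ×ˢ
          ((Finset.univ : Finset (Fin (N + 1))).filter (fun l => l.val ≤ s)) :
            Finset (Fin (2 + 1) × Fin (N + 1))) : Set (Fin (2 + 1) × Fin (N + 1))) := by
    rintro _ ⟨⟨p, hp⟩, hpx, rfl⟩
    have h2 : x.1.1 ≠ p.1 := hpx
    have h3 : p.1.val ≠ 2 := by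
      intro h
      apply h2
      rw [hx']
      exact Fin.ext h.symm
    have h4 := p.1.2
    simp only [Finset.coe_product, Set.mem_prod, Finset.coe_filter, Finset.mem_univ, true_and,
      Set.mem_ofPred_eq]
    refine ⟨by omega, ?_⟩
    rcases hp with h | h
    · exact h
    · exact absurd h h3
  rw [← Set.ncard_image_of_injective _ Subtype.val_injective]
  refine (Set.ncard_le_ncard h1 (Set.toFinite _)).trans ?_
  rw [Set.ncard_coe_finset, Finset.card_product]
  have c1 : ((Finset.univ : Finset (Fin (2 + 1))).filter (fun i => i.val < 2)).card = 2 := by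
    decide
  have c2 : ((Finset.univ : Finset (Fin (N + 1))).filter (fun l => l.val ≤ s)).card ≤
      s + 1 := by
    have := Finset.card_le_card_of_injOn (s := (Finset.univ : Finset (Fin (N + 1))).filter
      (fun i => i.val ≤ s)) (t := Finset.range (s + 1)) (fun i => i.val)
      (by
        intro i hi
        have h1 : i.val ≤ s := by simpa using hi
        simp; omega) (by intro x _ y _ h; exact Fin.ext h)
    simpa using this
  rw [c1]
  exact Nat.mul_le_mul_left 2 c2

/-- **Main reduction.** `F` is properly coloured with colours `0, …, R` and composed of pieces in a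
tree-like way; every piece contains at most `s + 1` vertices of each of the colours
`0, …, R - 1`, and meets the union of the earlier pieces in at most `k` vertices. -/
theorem pieces {W : Type} [Fintype W] (F : SimpleGraph W) (R s k : ℕ) (hR : 2 ≤ R)
    (C : F.Coloring (Fin (R + 1))) (m : ℕ) (B : ℕ → Set W) (hcov : ∀ w, ∃ i < m, w ∈ B i)
    (hedge : ∀ a b, F.Adj a b → ∃ i < m, a ∈ B i ∧ b ∈ B i)
    (hsmall : ∀ i < m, ∀ q : Fin (R + 1), q ≠ Fin.last R →
      (B i ∩ {w | C w = q}).ncard ≤ s + 1)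
    (hglue : ∀ i < m, 0 < i → ∃ j < i, (∀ l < i, B i ∩ B l ⊆ B j) ∧
      (B i ⊆ B j ∨ (B i ∩ B j).ncard ≤ k)) :
    ∃ N : ℕ, c F ≤ ((k + 2 : ℕ) : ℝ≥0∞) *
      c ((multi (Fin (R + 1)) (Fin (N + 1))).induce (target R N (s + 1))) := by
  rcases isEmpty_or_nonempty W with hW | hW
  · refine ⟨0, (c_mono (F' := (multi (Fin (R + 1)) (Fin (0 + 1))).induce (target R 0 (s + 1)))
      ?_).trans ?_⟩
    · exact ⟨⟨⟨fun w => isEmptyElim w, fun {a} => isEmptyElim a⟩, fun a => isEmptyElim a⟩⟩
    · calc c _ = 1 * c _ := (one_mul _).symm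
        _ ≤ _ := mul_le_mul_left (by exact_mod_cast (by omega : 1 ≤ k + 2)) _
  have hm : 0 < m := by
    obtain ⟨i, hi, -⟩ := hcov hW.some
    omega
  -- the labels for the colours different from the last one
  have hlab : ∀ q : Fin (R + 1), ∃ lab : W → Fin (s + 1), q ≠ Fin.last R →
      ∀ i < m, Set.InjOn lab (B i ∩ {w | C w = q}) := by
    intro q
    by_cases hq : q = Fin.last R
    · exact ⟨fun _ => 0, fun h => absurd hq h⟩
    · obtain ⟨lab, hlab⟩ := tree_colour s m (fun i => if i < m then B i ∩ {w | C w = q} else ∅)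
        (fun i => by
          by_cases hi : i < m
          · simp only [if_pos hi]; exact hsmall i hi q hq
          · simp only [if_neg hi]; rw [Set.ncard_empty]; omega) (by
          intro n hn hn0
          obtain ⟨j, hj, hsub, -⟩ := hglue n hn hn0
          refine ⟨j, hj, fun l hl => ?_⟩
          simp only [if_pos hn, if_pos (lt_trans hl hn), if_pos (lt_trans hj hn)]
          rintro z ⟨⟨h1, h2⟩, h3, -⟩
          exact ⟨hsub l hl ⟨h1, h3⟩, h2⟩)
      refine ⟨lab, fun _ i hi => ?_⟩
      have := hlab i hi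
      simp only [if_pos hi] at this
      exact this
  choose lab hlab using hlab
  obtain ⟨n, ⟨e⟩⟩ := Finite.exists_equiv_fin W
  set N : ℕ := n + s + 1 with hN
  set U := target R N (s + 1) with hUdef
  have hlast : (Fin.last R : Fin (R + 1)).val = R := rfl
  set π : W → U := fun w => if h : C w = Fin.last R then
      ⟨(C w, ⟨(e w).1, by have := (e w).2; omega⟩), Or.inr (by rw [h]; rfl)⟩
    else ⟨(C w, ⟨(lab (C w) w).1, by have := (lab (C w) w).2; omega⟩),
      Or.inl (by have := (lab (C w) w).2; show (lab (C w) w).1 ≤ s + 1; omega)⟩ with hπ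
  have hπ1 : ∀ w, (π w).1.1 = C w := by
    intro w
    simp only [hπ]
    split_ifs <;> rfl
  have hπ2 : ∀ w, C w = Fin.last R → (π w).1.2.val = (e w).1 := by
    intro w hw
    simp only [hπ]
    rw [dif_pos hw]
  have hπ3 : ∀ w, C w ≠ Fin.last R → (π w).1.2.val = (lab (C w) w).1 := by
    intro w hw
    simp only [hπ]
    rw [dif_neg hw]
  have hu : ∀ i : Fin (R + 1), ((i, ⟨s + 1, by omega⟩) : Fin (R + 1) × Fin (N + 1)) ∈ U :=
    fun i => Or.inl le_rfl
  set i0 : Fin (R + 1) := ⟨0, by omega⟩ with hi0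
  set i1 : Fin (R + 1) := ⟨1, by omega⟩ with hi1
  have hi01 : i0 ≠ i1 := by simp [hi0, hi1, Fin.ext_iff]
  have hi0l : i0 ≠ Fin.last R := by
    intro h
    have := congrArg Fin.val h
    simp only [hi0, hlast] at this
    omega
  have hi1l : i1 ≠ Fin.last R := by
    intro h
    have := congrArg Fin.val h
    simp only [hi1, hlast] at this
    omega
  have hπne : ∀ (i : Fin (R + 1)), i ≠ Fin.last R → ∀ w,
      π w ≠ ⟨(i, ⟨s + 1, by omega⟩), hu i⟩ := by
    intro i hi w h
    have h1 : C w = i := by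
      rw [← hπ1 w, h]
    have h2 := hπ3 w (by rw [h1]; exact hi)
    rw [h] at h2
    have h3 := (lab (C w) w).2
    simp only at h2
    omega
  refine ⟨N, ?_⟩
  have htg := treeGlued_add F ((multi (Fin (R + 1)) (Fin (N + 1))).induce U) k
    ⟨(i0, ⟨s + 1, by omega⟩), hu i0⟩ ⟨(i1, ⟨s + 1, by omega⟩), hu i1⟩ hi01
    (by
      intro u
      by_cases h : i0 = u.1.1
      · right
        exact fun h' => hi01 (h.trans h'.symm)
      · left; exact h)
    π (hπne i0 hi0l) (hπne i1 hi1l) m B hm
    (by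
      intro a b hab
      show (π a).1.1 ≠ (π b).1.1
      rw [hπ1, hπ1]
      exact C.valid hab)
    hcov hedge
    (by
      intro i hi a ha b hb hab
      have h1 : C a = C b := by rw [← hπ1 a, ← hπ1 b, hab]
      by_cases hal : C a = Fin.last R
      · have h2 := hπ2 a hal
        have h3 := hπ2 b (h1.symm.trans hal)
        rw [hab, h3] at h2
        exact e.injective (Fin.ext h2.symm)
      · have h2 := hπ3 a hal
        have h3 := hπ3 b (fun h => hal (h1.trans h))
        rw [hab, h3, h1] at h2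
        exact hlab (C b) (fun h => hal (h1.trans h)) i hi ⟨ha, h1⟩ ⟨hb, rfl⟩
          (Fin.ext h2.symm))
    hglue
  exact c_le_of_add F _ (k + 2) (multi_conn _ (i0, ⟨s + 1, by omega⟩) (i1, ⟨s + 1, by omega⟩)
    (hu i0) (hu i1) hi01) htg (by omega) (by
      rw [Fintype.one_lt_card_iff]
      exact ⟨⟨(i0, ⟨s + 1, by omega⟩), hu i0⟩, ⟨(i1, ⟨s + 1, by omega⟩), hu i1⟩,
        fun h => hi01 (congrArg (fun z => z.1.1) h)⟩)

/-- the constant of the reduction -/
theorem pieces_bound {W : Type} [Fintype W] (F : SimpleGraph W) (R s k : ℕ) (hR : 2 ≤ R)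
    (hs : 1 ≤ s) (C : F.Coloring (Fin (R + 1))) (m : ℕ) (B : ℕ → Set W)
    (hcov : ∀ w, ∃ i < m, w ∈ B i)
    (hedge : ∀ a b, F.Adj a b → ∃ i < m, a ∈ B i ∧ b ∈ B i)
    (hsmall : ∀ i < m, ∀ q : Fin (R + 1), q ≠ Fin.last R → (B i ∩ {w | C w = q}).ncard ≤ s)
    (hglue : ∀ i < m, 0 < i → ∃ j < i, (∀ l < i, B i ∩ B l ⊆ B j) ∧
      (B i ⊆ B j ∨ (B i ∩ B j).ncard ≤ k)) :
    c F ≤ (((k + 2) * ∏ i ∈ Finset.range (R + 1), (i * (s + 1) + (R - i)) : ℕ) : ℝ≥0∞) *
      c (⊤ : SimpleGraph (Fin (R + 1))) ∧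
    (R = 2 → c F ≤ ((2 * (k + 2) * (s + 1) : ℕ) : ℝ≥0∞)) := by
  obtain ⟨t, rfl⟩ : ∃ t, s = t + 1 := ⟨s - 1, by omega⟩
  obtain ⟨N, hN⟩ := pieces F R t k hR C m B hcov hedge hsmall hglue
  constructor
  · refine hN.trans ?_
    rw [target_eq, Nat.cast_mul, mul_assoc]
    exact mul_le_mul_right (multi_bound R N (t + 1) hR (R + 1) le_rfl) _
  · rintro rfl
    refine hN.trans ?_
    refine (mul_le_mul_right (target_three N (t + 1)) _).trans (le_of_eq ?_)
    push_cast
    ring

/-- graphs of treewidth at most `k` -/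
theorem treewidth_bound_colour {W : Type} [Fintype W] (F : SimpleGraph W) (R k : ℕ)
    (hR : 2 ≤ R) (hF : TreewidthLe F k) (hC : F.Colorable (R + 1)) :
    c F ≤ (((k + 2) * ∏ i ∈ Finset.range (R + 1), (i * (k + 2) + (R - i)) : ℕ) : ℝ≥0∞) *
      c (⊤ : SimpleGraph (Fin (R + 1))) ∧
    (R = 2 → c F ≤ ((2 * (k + 2) ^ 2 : ℕ) : ℝ≥0∞)) := by
  obtain ⟨C⟩ := hC
  obtain ⟨π, m, B, -, hcov, hedge, hinj, hglue⟩ := treeGlued_of_treewidth F k hF
  have hcard : ∀ i < m, (B i).ncard ≤ k + 1 := by
    intro i hi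
    have h1 : (B i).ncard = (π '' B i).ncard := (Set.ncard_image_of_injOn (hinj i hi)).symm
    rw [h1]
    refine (Set.ncard_le_ncard (Set.subset_univ _) (Set.toFinite _)).trans ?_
    rw [Set.ncard_univ, Nat.card_eq_fintype_card, Fintype.card_fin]
  obtain ⟨h1, h2⟩ := pieces_bound F R (k + 1) k hR (by omega) C m B hcov hedge (by
      intro i hi q _
      exact (Set.ncard_le_ncard Set.inter_subset_left (Set.toFinite _)).trans (hcard i hi)) (by
      intro i hi hi0
      rcases hglue i hi with hdis | ⟨j, hj, hsub, hg⟩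
      · have hz : ∀ l < i, B i ∩ B l = ∅ := fun l hl => Set.disjoint_iff_inter_eq_empty.1 (hdis l hl)
        refine ⟨0, hi0, fun l hl => ?_, Or.inr ?_⟩
        · rw [hz l hl]; exact Set.empty_subset _
        · rw [hz 0 hi0, Set.ncard_empty]; omega
      · refine ⟨j, hj, hsub, ?_⟩
        rcases hg with hg | ⟨hg, -⟩
        · exact Or.inl hg
        · exact Or.inr hg)
  refine ⟨h1, fun h => (h2 h).trans (le_of_eq ?_)⟩
  congr 1
  ring

end Pool.Agent.Y388.CF
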